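import Pool.Agent.Helper8.SW.Defs

/-!
# Package INTERP: the Künneth projector by interpolation
-/

open CategoryTheory MonoidalCategory Limits BraidedCategory

universe u v w

namespace Pool.Agent.Helper18.SW

open Pool.Agent.TH90.AB Pool.Agent.TH90.Kim Pool.Agent.Helper96.Kim Pool.Agent.Helper96.SP
  Pool.Agent.Helper8.SW

set_option linter.unusedSectionVars false

variable {𝒜 : Type u} [Category.{v} 𝒜] [MonoidalCategory 𝒜] [SymmetricCategory 𝒜]
  [Preadditive 𝒜] [MonoidalPreadditive 𝒜] [Linear ℚ 𝒜] [MonoidalLinear ℚ 𝒜]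
  [hdual : ∀ X : 𝒜, HasRightDual X] {K : Type w} [Field K] [CharZero K] (F : Realisation 𝒜 K)

lemma alg_id (M : 𝒜) : (LinearMap.id : F.V M →ₗ[K] F.V M) ∈ Alg F M := by
  refine Submodule.subset_span ⟨𝟙 M, ?_⟩
  refine LinearMap.ext fun x => ?_
  exact F.map_id M x

lemma alg_comp {M : 𝒜} {A B : F.V M →ₗ[K] F.V M} (hA : A ∈ Alg F M) (hB : B ∈ Alg F M) :
    A ∘ₗ B ∈ Alg F M := by
  unfold Alg at hA
  induction hA using Submodule.span_induction with
  | mem x hx =>
    obtain ⟨f, rfl⟩ := hx
    unfold Alg at hB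
    induction hB using Submodule.span_induction with
    | mem y hy =>
      obtain ⟨g, rfl⟩ := hy
      refine Submodule.subset_span ⟨g ≫ f, ?_⟩
      refine LinearMap.ext fun x => ?_
      exact F.map_comp g f x
    | zero => rw [LinearMap.comp_zero]; exact zero_mem _
    | add x y _ _ hx hy => rw [LinearMap.comp_add]; exact add_mem hx hy
    | smul a x _ hx => rw [LinearMap.comp_smul]; exact Submodule.smul_mem _ _ hx
  | zero => rw [LinearMap.zero_comp]; exact zero_mem _
  | add x y _ _ hx hy => rw [LinearMap.add_comp]; exact add_mem hx hy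
  | smul a x _ hx => rw [LinearMap.smul_comp]; exact Submodule.smul_mem _ _ hx

theorem interp (G : Grading F) {M : 𝒜} {d : ℕ} (b : Module.Basis (Fin d) K (F.V M))
    (dg : Fin d → ℤ) (hb : ∀ i, G.pr (dg i) M (b i) = b i)
    (h : ∀ i j, dg i ≠ dg j → ∃ A ∈ Alg F M, ∃ α : ℤ → K, (∀ l, A (b l) = α (dg l) • b l) ∧
      α (dg i) ≠ α (dg j)) (k : ℤ) : G.pr k M ∈ Alg F M := by
  classical
  have hpr : ∀ l, G.pr k M (b l) = if k = dg l then b l else 0 := by
    intro l
    have h1 := G.pr_pr k (dg l) M (b l)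
    rw [hb l] at h1
    exact h1
  by_cases hk : ∃ i, dg i = k
  · obtain ⟨i, hi⟩ := hk
    have key : ∀ s : Finset (Fin d), (∀ l ∈ s, dg l ≠ k) → ∃ B ∈ Alg F M, ∃ β : ℤ → K,
        (∀ l, B (b l) = β (dg l) • b l) ∧ β k = 1 ∧ ∀ l ∈ s, β (dg l) = 0 := by
      intro s
      induction s using Finset.induction_on with
      | empty =>
        intro _
        refine ⟨LinearMap.id, alg_id F M, fun _ => 1, fun l => ?_, rfl, fun l hl => ?_⟩
        · rw [LinearMap.id_apply, one_smul]
        · exact absurd hl (Finset.notMem_empty l)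
      | insert a s ha ih =>
        intro hs
        obtain ⟨B, hB, β, hβ, hβ1, hβ0⟩ := ih fun l hl => hs l (Finset.mem_insert_of_mem hl)
        have hak : dg i ≠ dg a := by
          rw [hi]
          exact (hs a (Finset.mem_insert_self a s)).symm
        obtain ⟨A, hA, α, hα, hne⟩ := h i a hak
        rw [hi] at hne
        have hne' : α k - α (dg a) ≠ 0 := sub_ne_zero.2 hne
        refine ⟨((α k - α (dg a))⁻¹ • (A - α (dg a) • LinearMap.id)) ∘ₗ B,
          alg_comp F (Submodule.smul_mem _ _ (sub_mem hA (Submodule.smul_mem _ _ (alg_id F M)))) hB,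
          fun t => ((α k - α (dg a))⁻¹ * (α t - α (dg a))) * β t, fun l => ?_, ?_, fun l hl => ?_⟩
        · rw [LinearMap.comp_apply, hβ l, _root_.map_smul, LinearMap.smul_apply,
            LinearMap.sub_apply, LinearMap.smul_apply, LinearMap.id_apply, hα l, ← sub_smul,
            smul_smul, smul_smul]
          congr 1
          ring
        · simp only
          rw [inv_mul_cancel₀ hne', hβ1, mul_one]
        · simp only
          rcases Finset.mem_insert.1 hl with rfl | hl
          · rw [sub_self, mul_zero, zero_mul]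
          · rw [hβ0 l hl, mul_zero]
    obtain ⟨B, hB, β, hβ, hβ1, hβ0⟩ := key (Finset.univ.filter fun l => dg l ≠ k)
      (fun l hl => (Finset.mem_filter.1 hl).2)
    have hBk : B = G.pr k M := by
      refine b.ext fun l => ?_
      rw [hβ l, hpr l]
      by_cases hl : dg l = k
      · rw [if_pos hl.symm, hl, hβ1, one_smul]
      · rw [if_neg (fun h => hl h.symm),
          hβ0 l (Finset.mem_filter.2 ⟨Finset.mem_univ l, hl⟩), zero_smul]
    rw [← hBk]
    exact hB
  · have h0 : G.pr k M = 0 := by
      refine b.ext fun l => ?_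
      rw [hpr l, if_neg (fun h => hk ⟨l, h.symm⟩), LinearMap.zero_apply]
    rw [h0]
    exact zero_mem _

end Pool.Agent.Helper18.SW
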